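import Mathlib

open Finset

namespace Pool.Agent.Results.MP_615643_co.SqrtChanges

/-- The vertex set of the cube. -/
abbrev Vert (n : ℕ) : Type := Fin n → Bool

/-- The hypercube graph: two vertices are adjacent when they differ in exactly one coordinate. -/
def Q (n : ℕ) : SimpleGraph (Vert n) where
  Adj x y := ∃! i, x i ≠ y i
  symm := ⟨by
    rintro x y ⟨i, hi, h⟩
    exact ⟨i, fun e => hi e.symm, fun j hj => h j (fun e => hj e.symm)⟩⟩
  loopless := ⟨by
    rintro x ⟨i, hi, -⟩
    exact hi rfl⟩

/-- The antipode of a vertex. -/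
def anti {n : ℕ} (v : Vert n) : Vert n := fun i => !(v i)

/-- A red-blue edge colouring of the cube: any map from the edge set to `Bool`. -/
abbrev Colouring (n : ℕ) : Type := (Q n).edgeSet → Bool

/-- The number of places where two consecutive entries of a list differ. -/
def numChanges : List Bool → ℕ
  | [] => 0
  | [_] => 0
  | a :: b :: l => (if a = b then 0 else 1) + numChanges (b :: l)

/-- The colours of the consecutive edges of a walk. -/
def colours {n : ℕ} (χ : Colouring n) {u v : Vert n} (w : (Q n).Walk u v) : List Bool :=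
  w.darts.map (fun d => χ ⟨d.edge, d.edge_mem⟩)

/-- The least number of colour changes over all paths from `v` to its antipode. -/
noncomputable def m {n : ℕ} (χ : Colouring n) (v : Vert n) : ℕ :=
  sInf {k : ℕ | ∃ w : (Q n).Walk v (anti v), w.IsPath ∧ numChanges (colours χ w) = k}

/-! ### Flips and connectivity -/

/-- Flip one coordinate. -/
def flip {n : ℕ} (y : Vert n) (i : Fin n) : Vert n := Function.update y i (!(y i))

theorem flip_same {n : ℕ} (y : Vert n) (i : Fin n) : flip y i i = !(y i) := by simp [flip]

theorem flip_ne {n : ℕ} (y : Vert n) {i j : Fin n} (h : j ≠ i) : flip y i j = y j := by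
  simp [flip, h]

theorem flip_flip {n : ℕ} (y : Vert n) (i : Fin n) : flip (flip y i) i = y := by
  funext j
  by_cases h : j = i
  · subst h; simp [flip]
  · simp [flip, h]

theorem adj_flip {n : ℕ} (y : Vert n) (i : Fin n) : (Q n).Adj y (flip y i) := by
  refine ⟨i, ?_, ?_⟩
  · simp [flip]
  · intro j hj
    by_contra h
    exact hj (by simp [flip, h])

theorem adj_iff_flip {n : ℕ} {x y : Vert n} (h : (Q n).Adj x y) : ∃ i, y = flip x i := by
  obtain ⟨i, hi, hu⟩ := h
  refine ⟨i, ?_⟩
  funext j
  by_cases hj : j = i
  · subst hj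
    simp only [flip, Function.update_self]
    revert hi
    cases x j <;> cases y j <;> simp
  · have : ¬ (x j ≠ y j) := fun h' => hj (hu j h')
    simp only [flip, Function.update_of_ne hj]
    exact (not_not.mp this).symm

theorem exists_walk {n : ℕ} (u v : Vert n) : Nonempty ((Q n).Walk u v) := by
  induction hk : (univ.filter (fun i => u i ≠ v i)).card using Nat.strong_induction_on
    generalizing u with
  | _ k ih =>
    by_cases huv : u = v
    · subst huv; exact ⟨SimpleGraph.Walk.nil⟩
    · obtain ⟨i, hi⟩ := Function.ne_iff.mp huv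
      have hlt : (univ.filter (fun j => flip u i j ≠ v j)).card < k := by
        rw [← hk]
        apply Finset.card_lt_card
        refine ⟨?_, ?_⟩
        · intro j hj
          simp only [Finset.mem_filter, Finset.mem_univ, true_and] at hj ⊢
          by_cases hji : j = i
          · subst hji; exact hi
          · rwa [flip_ne u hji] at hj
        · intro hsub
          have := hsub (show i ∈ univ.filter (fun j => u j ≠ v j) by simp [hi])
          simp only [Finset.mem_filter, Finset.mem_univ, true_and, flip_same] at this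
          revert this hi
          cases u i <;> cases v i <;> simp
      obtain ⟨w⟩ := ih _ hlt (flip u i) rfl
      exact ⟨SimpleGraph.Walk.cons (adj_flip u i) w⟩

/-! ### Counting changes -/

theorem numChanges_cons_le (a : Bool) (l : List Bool) :
    numChanges l ≤ numChanges (a :: l) := by
  cases l with
  | nil => simp [numChanges]
  | cons b l => simp [numChanges]

theorem numChanges_cons_le_succ (a : Bool) (l : List Bool) :
    numChanges (a :: l) ≤ numChanges l + 1 := by
  cases l with
  | nil => simp [numChanges]
  | cons b l => simp only [numChanges]; split_ifs <;> omega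

theorem numChanges_cons_cons (a b : Bool) (l : List Bool) :
    numChanges (a :: l) ≤ (if a = b then 0 else 1) + numChanges (b :: l) := by
  by_cases h : a = b
  · subst h; simp
  · rw [if_neg h]
    have h1 := numChanges_cons_le_succ a l
    have h2 := numChanges_cons_le b l
    omega

theorem numChanges_sublist {l₁ l₂ : List Bool} (h : l₁.Sublist l₂) :
    numChanges l₁ ≤ numChanges l₂ := by
  have key : ∀ {l₁ l₂ : List Bool}, l₁.Sublist l₂ →
      numChanges l₁ ≤ numChanges l₂ ∧ ∀ a, numChanges (a :: l₁) ≤ numChanges (a :: l₂) := by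
    intro l₁ l₂ h
    induction h with
    | slnil => exact ⟨le_rfl, fun a => le_rfl⟩
    | @cons l₁ l₂ b h ih =>
      refine ⟨ih.1.trans (numChanges_cons_le _ _), fun a => ?_⟩
      have h1 := numChanges_cons_cons a b l₁
      have h2 := ih.2 b
      have h3 : numChanges (a :: b :: l₂) = (if a = b then 0 else 1) + numChanges (b :: l₂) := by
        simp [numChanges]
      omega
    | cons_cons b h ih =>
      refine ⟨ih.2 b, fun a => ?_⟩
      simp only [numChanges]
      have := ih.2 b
      omega
  exact (key h).1

theorem numChanges_append_single (l : List Bool) (a b : Bool) :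
    numChanges (l ++ [a]) ≤ numChanges (l ++ [b]) + 1 := by
  induction l with
  | nil => simp [numChanges]
  | cons c l ih =>
    cases l with
    | nil =>
      simp only [List.nil_append, List.cons_append, numChanges]
      split_ifs <;> omega
    | cons d l =>
      simp only [List.cons_append, numChanges] at ih ⊢
      omega

theorem numChanges_append_double (l : List Bool) (a : Bool) :
    numChanges (l ++ [a] ++ [a]) = numChanges (l ++ [a]) := by
  induction l with
  | nil => simp [numChanges]
  | cons c l ih =>
    cases l with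
    | nil => simp [numChanges]
    | cons d l =>
      simp only [List.cons_append, numChanges] at ih ⊢
      omega

/-! ### The potential -/

section potential

variable {n : ℕ} (χ : Colouring n)

/-- The least number of changes from `v` to `x` when an extra last colour `c` is added. -/
noncomputable def D (v x : Vert n) (c : Bool) : ℕ :=
  sInf {k : ℕ | ∃ w : (Q n).Walk v x, numChanges (colours χ w ++ [c]) = k}

theorem D_spec (v x : Vert n) (c : Bool) :
    ∃ w : (Q n).Walk v x, numChanges (colours χ w ++ [c]) = D χ v x c := by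
  have hne : {k : ℕ | ∃ w : (Q n).Walk v x, numChanges (colours χ w ++ [c]) = k}.Nonempty := by
    obtain ⟨w⟩ := exists_walk v x
    exact ⟨_, w, rfl⟩
  exact Nat.sInf_mem hne

theorem D_le (v x : Vert n) (c : Bool) (w : (Q n).Walk v x) :
    D χ v x c ≤ numChanges (colours χ w ++ [c]) :=
  Nat.sInf_le ⟨w, rfl⟩

theorem D_self (v : Vert n) (c : Bool) : D χ v v c = 0 := by
  have := D_le χ v v c SimpleGraph.Walk.nil
  simpa [colours, numChanges] using this

theorem D_le_succ (v x : Vert n) (c c' : Bool) : D χ v x c ≤ D χ v x c' + 1 := by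
  obtain ⟨w, hw⟩ := D_spec χ v x c'
  have h1 := D_le χ v x c w
  have h2 := numChanges_append_single (colours χ w) c c'
  omega

/-- The colour of the edge at `y` in direction `i`. -/
def col (y : Vert n) (i : Fin n) : Bool :=
  χ ⟨s(y, flip y i), (SimpleGraph.mem_edgeSet (Q n)).mpr (adj_flip y i)⟩

theorem col_flip (y : Vert n) (i : Fin n) : col χ (flip y i) i = col χ y i := by
  unfold col
  congr 1
  apply Subtype.ext
  show s(flip y i, flip (flip y i) i) = s(y, flip y i)
  rw [flip_flip, Sym2.eq_swap]

theorem colours_concat {u v x : Vert n} (w : (Q n).Walk u v) (h : (Q n).Adj v x) :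
    colours χ (w.concat h) = colours χ w ++ [χ ⟨s(v, x), (SimpleGraph.mem_edgeSet (Q n)).mpr h⟩] := by
  unfold colours
  rw [SimpleGraph.Walk.darts_concat]
  simp [List.concat_eq_append]

theorem D_flip_le (v y : Vert n) (i : Fin n) :
    D χ v (flip y i) (col χ y i) ≤ D χ v y (col χ y i) := by
  obtain ⟨w, hw⟩ := D_spec χ v y (col χ y i)
  have h1 := D_le χ v (flip y i) (col χ y i) (w.concat (adj_flip y i))
  rw [colours_concat] at h1
  have h2 : numChanges (colours χ w ++ [col χ y i] ++ [col χ y i])
      = numChanges (colours χ w ++ [col χ y i]) := numChanges_append_double _ _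
  unfold col at h1 h2 hw ⊢
  rw [h2, hw] at h1
  exact h1

theorem D_flip (v y : Vert n) (i : Fin n) :
    D χ v (flip y i) (col χ (flip y i) i) = D χ v y (col χ y i) := by
  apply le_antisymm
  · rw [col_flip]; exact D_flip_le χ v y i
  · have := D_flip_le χ v (flip y i) i
    rw [flip_flip] at this
    rw [col_flip] at this ⊢
    exact this

theorem m_le_D (v : Vert n) (c : Bool) : m χ v ≤ D χ v (anti v) c := by
  obtain ⟨w, hw⟩ := D_spec χ v (anti v) c
  have h1 : m χ v ≤ numChanges (colours χ w.bypass) :=
    Nat.sInf_le ⟨w.bypass, w.bypass_isPath, rfl⟩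
  have h2 : numChanges (colours χ w.bypass) ≤ numChanges (colours χ w) :=
    numChanges_sublist (w.darts_bypass_sublist_darts.map _)
  have h3 : numChanges (colours χ w) ≤ numChanges (colours χ w ++ [c]) :=
    numChanges_sublist (List.sublist_append_left _ _)
  omega

end potential

/-! ### The noise argument -/

section noise

variable {n : ℕ}

/-- The weight of one coordinate. -/
noncomputable def wt (b : Bool) (t : ℝ) : ℝ := if b then t else 1 - t

/-- The score of one coordinate. -/
noncomputable def xi (b : Bool) (t : ℝ) : ℝ := if b then 1 / t else -(1 / (1 - t))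

/-- The product weight. -/
noncomputable def W (K : Vert n) (t : ℝ) : ℝ := ∏ i, wt (K i) t

/-- The vertex obtained from `v` by flipping the coordinates in `K`. -/
def shift (v K : Vert n) : Vert n := fun i => xor (v i) (K i)

theorem sum_W (t : ℝ) : ∑ K : Vert n, W K t = 1 := by
  have h := Finset.prod_univ_sum (fun _ : Fin n => (univ : Finset Bool)) (fun _ b => wt b t)
  rw [Fintype.piFinset_univ] at h
  unfold W
  rw [← h]
  simp [wt]

theorem wt_nonneg (b : Bool) {t : ℝ} (h0 : 0 ≤ t) (h1 : t ≤ 1) : 0 ≤ wt b t := by
  unfold wt; split_ifs <;> linarith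

theorem W_nonneg (K : Vert n) {t : ℝ} (h0 : 0 ≤ t) (h1 : t ≤ 1) : 0 ≤ W K t :=
  Finset.prod_nonneg fun _ _ => wt_nonneg _ h0 h1

theorem wt_mul_xi (b : Bool) {t : ℝ} (h0 : 0 < t) (h1 : t < 1) :
    wt b t * xi b t = if b then 1 else -1 := by
  have : (1 - t) ≠ 0 := by linarith
  cases b <;> simp [wt, xi] <;> field_simp

theorem W_mul_xi_flip (K : Vert n) (i : Fin n) {t : ℝ} (h0 : 0 < t) (h1 : t < 1) :
    W (flip K i) t * xi (flip K i i) t = -(W K t * xi (K i) t) := by
  have e1 : ∀ L : Vert n, W L t = wt (L i) t * ∏ j ∈ univ.erase i, wt (L j) t := fun L =>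
    (Finset.mul_prod_erase univ (fun j => wt (L j) t) (mem_univ i)).symm
  have e2 : ∏ j ∈ univ.erase i, wt (flip K i j) t = ∏ j ∈ univ.erase i, wt (K j) t := by
    apply Finset.prod_congr rfl
    intro j hj
    rw [flip_ne K (Finset.ne_of_mem_erase hj)]
  rw [e1 (flip K i), e1 K, e2]
  have a1 := wt_mul_xi (flip K i i) h0 h1
  have a2 := wt_mul_xi (K i) h0 h1
  have a3 : (if flip K i i then (1 : ℝ) else -1) = -(if K i then (1 : ℝ) else -1) := by
    rw [flip_same]; cases K i <;> simp
  calc wt (flip K i i) t * (∏ j ∈ univ.erase i, wt (K j) t) * xi (flip K i i) t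
      = (wt (flip K i i) t * xi (flip K i i) t) * ∏ j ∈ univ.erase i, wt (K j) t := by ring
    _ = -((wt (K i) t * xi (K i) t) * ∏ j ∈ univ.erase i, wt (K j) t) := by
        rw [a1, a2, a3]; ring
    _ = _ := by ring

/-- The flip as a permutation. -/
def flipPerm (i : Fin n) : Equiv.Perm (Vert n) where
  toFun K := flip K i
  invFun K := flip K i
  left_inv K := flip_flip K i
  right_inv K := flip_flip K i

theorem sum_flip_zero (i : Fin n) {t : ℝ} (h0 : 0 < t) (h1 : t < 1) (g : Vert n → ℝ)
    (hg : ∀ K, g (flip K i) = g K) : ∑ K : Vert n, W K t * xi (K i) t * g K = 0 := by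
  have h := Equiv.sum_comp (flipPerm i) (fun K : Vert n => W K t * xi (K i) t * g K)
  have h2 : ∑ K : Vert n, W (flipPerm i K) t * xi (flipPerm i K i) t * g (flipPerm i K)
      = -∑ K : Vert n, W K t * xi (K i) t * g K := by
    rw [← Finset.sum_neg_distrib]
    apply Finset.sum_congr rfl
    intro K _
    show W (flip K i) t * xi (flip K i i) t * g (flip K i) = _
    rw [W_mul_xi_flip K i h0 h1, hg]
    ring
  rw [h2] at h
  linarith

theorem xi_sq (b : Bool) {t : ℝ} (h0 : 0 < t) (h1 : t < 1) :
    xi b t * xi b t = 1 / (t * (1 - t)) + (1 / t - 1 / (1 - t)) * xi b t := by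
  have : (1 - t) ≠ 0 := by linarith
  have : t ≠ 0 := by linarith
  cases b <;> simp [xi] <;> field_simp <;> ring

theorem second_moment {t : ℝ} (h0 : 0 < t) (h1 : t < 1) (e : Fin n → ℝ)
    (he : ∀ i, e i * e i = 1) :
    ∑ K : Vert n, W K t * (∑ i, xi (K i) t * e i) ^ 2 = n / (t * (1 - t)) := by
  have h2 : ∀ i j : Fin n, ∑ K : Vert n, W K t * xi (K i) t * xi (K j) t
      = if i = j then 1 / (t * (1 - t)) else 0 := by
    intro i j
    split_ifs with hij
    · subst hij
      have e1 : ∀ K : Vert n, W K t * xi (K i) t * xi (K i) t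
          = W K t * (1 / (t * (1 - t)))
            + (1 / t - 1 / (1 - t)) * (W K t * xi (K i) t * 1) := by
        intro K
        rw [mul_assoc, xi_sq _ h0 h1]
        ring
      rw [Finset.sum_congr rfl (fun K _ => e1 K), Finset.sum_add_distrib, ← Finset.sum_mul,
        ← Finset.mul_sum, sum_W, sum_flip_zero i h0 h1 (fun _ => 1) (fun _ => rfl)]
      ring
    · exact sum_flip_zero i h0 h1 (fun K => xi (K j) t) (fun K => by
        show xi (flip K i j) t = xi (K j) t
        rw [flip_ne K (Ne.symm hij)])
  calc ∑ K : Vert n, W K t * (∑ i, xi (K i) t * e i) ^ 2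
      = ∑ K : Vert n, ∑ i, ∑ j, e i * e j * (W K t * xi (K i) t * xi (K j) t) := by
        apply Finset.sum_congr rfl
        intro K _
        rw [pow_two, Finset.sum_mul_sum, Finset.mul_sum]
        apply Finset.sum_congr rfl
        intro i _
        rw [Finset.mul_sum]
        apply Finset.sum_congr rfl
        intro j _
        ring
    _ = ∑ i, ∑ j, e i * e j * ∑ K : Vert n, W K t * xi (K i) t * xi (K j) t := by
        rw [Finset.sum_comm]
        apply Finset.sum_congr rfl
        intro i _
        rw [Finset.sum_comm]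
        apply Finset.sum_congr rfl
        intro j _
        rw [Finset.mul_sum]
    _ = ∑ i : Fin n, 1 / (t * (1 - t)) := by
        apply Finset.sum_congr rfl
        intro i _
        rw [Finset.sum_eq_single i]
        · rw [h2, if_pos rfl, he]; ring
        · intro j _ hj
          rw [h2, if_neg (Ne.symm hj)]; ring
        · intro h; exact absurd (mem_univ i) h
    _ = n / (t * (1 - t)) := by
        rw [Finset.sum_const, Finset.card_univ, Fintype.card_fin, nsmul_eq_mul, mul_one_div]

theorem first_moment (hn : 0 < n) {t : ℝ} (h0 : 0 < t) (h1 : t < 1) (e : Fin n → ℝ)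
    (he : ∀ i, e i * e i = 1) :
    ∑ K : Vert n, W K t * |∑ i, xi (K i) t * e i| ≤ Real.sqrt n / Real.sqrt (t * (1 - t)) := by
  have hn' : (0 : ℝ) < n := by exact_mod_cast hn
  have ht : 0 < t * (1 - t) := mul_pos h0 (by linarith)
  set T : ℝ := Real.sqrt n / Real.sqrt (t * (1 - t)) with hT
  have hTpos : 0 < T := div_pos (Real.sqrt_pos.mpr hn') (Real.sqrt_pos.mpr ht)
  have hTsq : T * T = n / (t * (1 - t)) := by
    rw [hT, div_mul_div_comm, Real.mul_self_sqrt hn'.le, Real.mul_self_sqrt ht.le]
  have hpt : ∀ a : ℝ, |a| ≤ (a ^ 2 / T + T) / 2 := by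
    intro a
    have h := sq_nonneg (|a| - T)
    have h3 : |a| ^ 2 = a ^ 2 := sq_abs a
    have : |a| * (2 * T) ≤ a ^ 2 + T * T := by nlinarith
    rw [show (a ^ 2 / T + T) / 2 = (a ^ 2 + T * T) / (2 * T) by field_simp]
    rwa [le_div_iff₀ (by positivity)]
  calc ∑ K : Vert n, W K t * |∑ i, xi (K i) t * e i|
      ≤ ∑ K : Vert n, W K t * (((∑ i, xi (K i) t * e i) ^ 2 / T + T) / 2) := by
        apply Finset.sum_le_sum
        intro K _
        exact mul_le_mul_of_nonneg_left (hpt _) (W_nonneg K h0.le h1.le)
    _ = (∑ K : Vert n, W K t * (∑ i, xi (K i) t * e i) ^ 2) / T / 2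
          + (∑ K : Vert n, W K t) * T / 2 := by
        rw [Finset.sum_div, Finset.sum_div, Finset.sum_mul, Finset.sum_div,
          ← Finset.sum_add_distrib]
        apply Finset.sum_congr rfl
        intro K _
        ring
    _ = T := by
        rw [second_moment h0 h1 e he, sum_W, ← hTsq]
        field_simp
        ring

theorem hasDerivAt_W (K : Vert n) {t : ℝ} (h0 : 0 < t) (h1 : t < 1) :
    HasDerivAt (fun t => W K t) (W K t * ∑ i, xi (K i) t) t := by
  have hw : ∀ i ∈ (univ : Finset (Fin n)),
      HasDerivAt (fun t => wt (K i) t) (wt (K i) t * xi (K i) t) t := by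
    intro i _
    rw [wt_mul_xi _ h0 h1]
    unfold wt
    cases K i
    · simpa using (hasDerivAt_id' t).const_sub 1
    · simpa using hasDerivAt_id' t
  have h := HasDerivAt.fun_finsetProd hw
  have e : (∑ i : Fin n, (∏ j ∈ univ.erase i, wt (K j) t) • (wt (K i) t * xi (K i) t))
      = W K t * ∑ i, xi (K i) t := by
    rw [Finset.mul_sum]
    apply Finset.sum_congr rfl
    intro i _
    have : W K t = wt (K i) t * ∏ j ∈ univ.erase i, wt (K j) t :=
      (Finset.mul_prod_erase univ (fun j => wt (K j) t) (mem_univ i)).symm
    rw [this, smul_eq_mul]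
    ring
  rw [e] at h
  exact h

theorem shift_flip (v K : Vert n) (i : Fin n) : shift v (flip K i) = flip (shift v K) i := by
  funext j
  by_cases h : j = i
  · subst h
    simp only [shift, flip, Function.update_self]
    cases v j <;> cases K j <;> rfl
  · simp [shift, flip, h]

/-- Shifting by a fixed set is a permutation of the vertices. -/
def shiftPerm (K : Vert n) : Equiv.Perm (Vert n) where
  toFun v := shift v K
  invFun v := shift v K
  left_inv v := by funext i; simp [shift]
  right_inv v := by funext i; simp [shift]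

theorem noise_bound (ε : Vert n → Fin n → ℝ) (hε : ∀ y i, ε y i * ε y i = 1)
    (X s : Vert n → Vert n → ℝ) (hs : ∀ v y, |s v y| ≤ 1)
    (hinv : ∀ v y i, X v (flip y i) - 1 / 2 * ε (flip y i) i * s v (flip y i)
      = X v y - 1 / 2 * ε y i * s v y) :
    ∑ v, (X v (anti v) - X v v) ≤ Real.pi / 2 * Real.sqrt n * 2 ^ n := by
  rcases Nat.eq_zero_or_pos n with hn | hn
  · subst hn
    have : ∀ v : Vert 0, anti v = v := fun v => Subsingleton.elim _ _
    simp [this]
  set H : ℝ → ℝ := fun t => ∑ v : Vert n, ∑ K : Vert n, W K t * X v (shift v K) with hH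
  -- endpoint values
  have hH0 : H 0 = ∑ v, X v v := by
    apply Finset.sum_congr rfl
    intro v _
    rw [Finset.sum_eq_single (fun _ => false)]
    · have h1 : W (fun _ : Fin n => false) (0 : ℝ) = 1 := by simp [W, wt]
      have h2 : shift v (fun _ => false) = v := by funext i; simp [shift]
      rw [h1, h2, one_mul]
    · intro K _ hK
      obtain ⟨i, hi⟩ := Function.ne_iff.mp hK
      have h1 : W K (0 : ℝ) = 0 := by
        apply Finset.prod_eq_zero (mem_univ i)
        have : K i = true := by simpa using hi
        simp [wt, this]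
      rw [h1, zero_mul]
    · intro h; exact absurd (mem_univ _) h
  have hH1 : H 1 = ∑ v, X v (anti v) := by
    apply Finset.sum_congr rfl
    intro v _
    rw [Finset.sum_eq_single (fun _ => true)]
    · have h1 : W (fun _ : Fin n => true) (1 : ℝ) = 1 := by simp [W, wt]
      have h2 : shift v (fun _ => true) = anti v := by funext i; simp [shift, anti]
      rw [h1, h2, one_mul]
    · intro K _ hK
      obtain ⟨i, hi⟩ := Function.ne_iff.mp hK
      have h1 : W K (1 : ℝ) = 0 := by
        apply Finset.prod_eq_zero (mem_univ i)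
        have : K i = false := by simpa using hi
        simp [wt, this]
      rw [h1, zero_mul]
    · intro h; exact absurd (mem_univ _) h
  -- continuity
  have hWc : ∀ K : Vert n, Continuous (fun t => W K t) := by
    intro K
    unfold W
    apply continuous_finsetProd
    intro i _
    unfold wt
    cases K i
    · simp only [Bool.false_eq_true, if_false]; exact continuous_const.sub continuous_id
    · simp only [if_true]; exact continuous_id
  have hHc : Continuous H := by
    rw [hH]
    exact continuous_finsetSum _ fun v _ => continuous_finsetSum _ fun K _ =>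
      (hWc K).mul continuous_const
  -- derivative
  set H' : ℝ → ℝ := fun t => ∑ v : Vert n, ∑ K : Vert n,
    W K t * (∑ i, xi (K i) t) * X v (shift v K) with hH'
  have hderiv : ∀ t, 0 < t → t < 1 → HasDerivAt H (H' t) t := by
    intro t h0 h1
    rw [hH, hH']
    apply HasDerivAt.fun_sum
    intro v _
    apply HasDerivAt.fun_sum
    intro K _
    exact (hasDerivAt_W K h0 h1).mul_const _
  have hbound : ∀ t, 0 < t → t < 1 →
      H' t ≤ 1 / 2 * 2 ^ n * (Real.sqrt n / Real.sqrt (t * (1 - t))) := by
    intro t h0 h1
    have step1 : ∀ v : Vert n, ∑ K : Vert n, W K t * (∑ i, xi (K i) t) * X v (shift v K)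
        = ∑ K : Vert n, W K t * (1 / 2 * s v (shift v K)
            * ∑ i, xi (K i) t * ε (shift v K) i) := by
      intro v
      have hz : ∀ i : Fin n, ∑ K : Vert n, W K t * xi (K i) t *
          (X v (shift v K) - 1 / 2 * ε (shift v K) i * s v (shift v K)) = 0 := by
        intro i
        apply sum_flip_zero i h0 h1
        intro K
        rw [shift_flip]
        exact hinv v (shift v K) i
      have hsum : ∑ i : Fin n, ∑ K : Vert n, W K t * xi (K i) t *
          (X v (shift v K) - 1 / 2 * ε (shift v K) i * s v (shift v K)) = 0 :=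
        Finset.sum_eq_zero fun i _ => hz i
      rw [Finset.sum_comm] at hsum
      rw [← sub_eq_zero, ← Finset.sum_sub_distrib, ← hsum]
      apply Finset.sum_congr rfl
      intro K _
      rw [Finset.mul_sum, Finset.mul_sum, Finset.mul_sum, Finset.sum_mul,
        ← Finset.sum_sub_distrib]
      apply Finset.sum_congr rfl
      intro i _
      ring
    have step2 : ∀ v K : Vert n, W K t * (1 / 2 * s v (shift v K)
            * ∑ i, xi (K i) t * ε (shift v K) i)
          ≤ 1 / 2 * (W K t * |∑ i, xi (K i) t * ε (shift v K) i|) := by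
      intro v K
      have hW := W_nonneg K h0.le h1.le
      set a := ∑ i, xi (K i) t * ε (shift v K) i
      have h2 : s v (shift v K) * a ≤ |a| := by
        calc s v (shift v K) * a ≤ |s v (shift v K) * a| := le_abs_self _
          _ = |s v (shift v K)| * |a| := abs_mul _ _
          _ ≤ 1 * |a| := mul_le_mul_of_nonneg_right (hs _ _) (abs_nonneg _)
          _ = |a| := one_mul _
      calc W K t * (1 / 2 * s v (shift v K) * a) = 1 / 2 * (W K t * (s v (shift v K) * a)) := by
            ring
        _ ≤ 1 / 2 * (W K t * |a|) := by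
            apply mul_le_mul_of_nonneg_left _ (by norm_num)
            exact mul_le_mul_of_nonneg_left h2 hW
    calc H' t = ∑ v : Vert n, ∑ K : Vert n, W K t * (1 / 2 * s v (shift v K)
            * ∑ i, xi (K i) t * ε (shift v K) i) := by
          rw [hH']
          exact Finset.sum_congr rfl fun v _ => step1 v
      _ ≤ ∑ v : Vert n, ∑ K : Vert n,
            1 / 2 * (W K t * |∑ i, xi (K i) t * ε (shift v K) i|) :=
          Finset.sum_le_sum fun v _ => Finset.sum_le_sum fun K _ => step2 v K
      _ = ∑ K : Vert n, ∑ v : Vert n,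
            1 / 2 * (W K t * |∑ i, xi (K i) t * ε (shift v K) i|) := Finset.sum_comm
      _ = ∑ K : Vert n, ∑ y : Vert n,
            1 / 2 * (W K t * |∑ i, xi (K i) t * ε y i|) := by
          apply Finset.sum_congr rfl
          intro K _
          exact Equiv.sum_comp (shiftPerm K)
            (fun y => 1 / 2 * (W K t * |∑ i, xi (K i) t * ε y i|))
      _ = ∑ y : Vert n, 1 / 2 * ∑ K : Vert n, W K t * |∑ i, xi (K i) t * ε y i| := by
          rw [Finset.sum_comm]
          apply Finset.sum_congr rfl
          intro y _
          rw [Finset.mul_sum]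
      _ ≤ ∑ y : Vert n, 1 / 2 * (Real.sqrt n / Real.sqrt (t * (1 - t))) := by
          apply Finset.sum_le_sum
          intro y _
          apply mul_le_mul_of_nonneg_left _ (by norm_num)
          exact first_moment hn h0 h1 (ε y) (hε y)
      _ = 1 / 2 * 2 ^ n * (Real.sqrt n / Real.sqrt (t * (1 - t))) := by
          rw [Finset.sum_const, Finset.card_univ]
          simp only [Fintype.card_pi, Fintype.card_bool, Finset.prod_const, Finset.card_univ,
            Fintype.card_fin, nsmul_eq_mul]
          push_cast
          ring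
  -- comparison function
  set C : ℝ := 1 / 2 * 2 ^ n * Real.sqrt n with hC
  set G : ℝ → ℝ := fun t => C * Real.arcsin (2 * t - 1) - H t with hG
  have hGd : ∀ t, 0 < t → t < 1 →
      HasDerivAt G (C * (1 / Real.sqrt (t * (1 - t))) - H' t) t := by
    intro t h0 h1
    have ht : 0 < t * (1 - t) := mul_pos h0 (by linarith)
    have ha : HasDerivAt (fun t : ℝ => Real.arcsin (2 * t - 1))
        (1 / Real.sqrt (t * (1 - t))) t := by
      have h2 : HasDerivAt (fun t : ℝ => 2 * t - 1) 2 t := by
        simpa using ((hasDerivAt_id t).const_mul 2).sub_const 1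
      have h3 := (Real.hasDerivAt_arcsin (x := 2 * t - 1) (by linarith) (by linarith)).comp t h2
      have h4 : 1 / Real.sqrt (1 - (2 * t - 1) ^ 2) * 2 = 1 / Real.sqrt (t * (1 - t)) := by
        rw [show 1 - (2 * t - 1) ^ 2 = 2 ^ 2 * (t * (1 - t)) by ring,
          Real.sqrt_mul (by norm_num), Real.sqrt_sq (by norm_num)]
        have := Real.sqrt_pos.mpr ht
        field_simp
      rw [h4] at h3
      exact h3
    exact (ha.const_mul C).sub (hderiv t h0 h1)
  have hmono : MonotoneOn G (Set.Icc 0 1) := by
    apply monotoneOn_of_deriv_nonneg (convex_Icc 0 1)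
    · apply Continuous.continuousOn
      exact (continuous_const.mul (Real.continuous_arcsin.comp
        ((continuous_const.mul continuous_id).sub continuous_const))).sub hHc
    · rw [interior_Icc]
      intro t ht
      exact (hGd t ht.1 ht.2).differentiableAt.differentiableWithinAt
    · rw [interior_Icc]
      intro t ht
      rw [(hGd t ht.1 ht.2).deriv]
      have := hbound t ht.1 ht.2
      have e : C * (1 / Real.sqrt (t * (1 - t)))
          = 1 / 2 * 2 ^ n * (Real.sqrt n / Real.sqrt (t * (1 - t))) := by
        rw [hC]; ring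
      linarith
  have hfin := hmono (Set.left_mem_Icc.mpr zero_le_one) (Set.right_mem_Icc.mpr zero_le_one)
    zero_le_one
  have e0 : G 0 = -(C * (Real.pi / 2)) - ∑ v, X v v := by
    rw [← hH0]
    simp only [hG]
    rw [show (2 : ℝ) * 0 - 1 = -1 by norm_num, Real.arcsin_neg_one]
    ring
  have e1 : G 1 = C * (Real.pi / 2) - ∑ v, X v (anti v) := by
    rw [← hH1]
    simp only [hG]
    rw [show (2 : ℝ) * 1 - 1 = 1 by norm_num, Real.arcsin_one]
  rw [e0, e1] at hfin
  rw [Finset.sum_sub_distrib]
  rw [hC] at hfin
  linarith

end noise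

/-! ### The upper bound -/

section upper

variable {n : ℕ} (χ : Colouring n)

theorem sum_m_le : ∑ v : Vert n, (m χ v : ℝ) ≤ Real.pi / 2 * Real.sqrt n * 2 ^ n := by
  set ε : Vert n → Fin n → ℝ := fun y i => if col χ y i then -1 else 1 with hε
  set X : Vert n → Vert n → ℝ := fun v y => ((D χ v y false : ℝ) + D χ v y true) / 2 with hX
  set s : Vert n → Vert n → ℝ := fun v y => (D χ v y true : ℝ) - D χ v y false with hs
  have key := noise_bound ε (by
      intro y i
      simp only [hε]
      split_ifs <;> norm_num) X s (by
      intro v y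
      have h1 : (D χ v y true : ℝ) ≤ D χ v y false + 1 := by
        exact_mod_cast D_le_succ χ v y true false
      have h2 : (D χ v y false : ℝ) ≤ D χ v y true + 1 := by
        exact_mod_cast D_le_succ χ v y false true
      simp only [hs]
      rw [abs_le]
      constructor <;> linarith) (by
      intro v y i
      have e : ∀ z : Vert n, X v z - 1 / 2 * ε z i * s v z = D χ v z (col χ z i) := by
        intro z
        simp only [hX, hε, hs]
        cases col χ z i <;> simp <;> ring
      rw [e, e, D_flip])
  refine le_trans (Finset.sum_le_sum fun v _ => ?_) key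
  have h1 : (m χ v : ℝ) ≤ D χ v (anti v) false := by exact_mod_cast m_le_D χ v false
  have h2 : (m χ v : ℝ) ≤ D χ v (anti v) true := by exact_mod_cast m_le_D χ v true
  simp only [hX]
  rw [D_self, D_self]
  push_cast
  linarith

/-- In every colouring some antipodal pair is joined with few colour changes. -/
theorem exists_vertex_le : ∃ v : Vert n, (m χ v : ℝ) ≤ Real.pi / 2 * Real.sqrt n := by
  by_contra h
  push Not at h
  have h1 : ∑ v : Vert n, Real.pi / 2 * Real.sqrt n < ∑ v : Vert n, (m χ v : ℝ) :=
    Finset.sum_lt_sum_of_nonempty univ_nonempty fun v _ => h v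
  have h2 := sum_m_le χ
  rw [Finset.sum_const, Finset.card_univ] at h1
  simp only [Fintype.card_pi, Fintype.card_bool, Finset.prod_const, Finset.card_univ,
            Fintype.card_fin, nsmul_eq_mul] at h1
  push_cast at h1
  linarith

end upper

/-- `m χ v` is attained by some path, so it is a genuine minimum. -/
theorem exists_path_eq_m {n : ℕ} (χ : Colouring n) (v : Vert n) :
    ∃ w : (Q n).Walk v (anti v), w.IsPath ∧ numChanges (colours χ w) = m χ v := by
  have hne : {k : ℕ | ∃ w : (Q n).Walk v (anti v), w.IsPath ∧
      numChanges (colours χ w) = k}.Nonempty := by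
    obtain ⟨w⟩ := exists_walk v (anti v)
    exact ⟨_, w.bypass, w.bypass_isPath, rfl⟩
  exact Nat.sInf_mem hne

/-- For every colouring of the edges of the cube by two colours there is a vertex joined to its
antipode by a path with at most `(π / 2) √n` colour changes. -/
theorem result : ∀ (n : ℕ) (χ : Colouring n),
    ∃ (v : Vert n) (w : (Q n).Walk v (anti v)), w.IsPath ∧
      (numChanges (colours χ w) : ℝ) ≤ Real.pi / 2 * Real.sqrt n := by
  intro n χ
  obtain ⟨v, hv⟩ := exists_vertex_le χ
  obtain ⟨w, hw, hm⟩ := exists_path_eq_m χ v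
  exact ⟨v, w, hw, by rw [hm]; exact hv⟩

end Pool.Agent.Results.MP_615643_co.SqrtChanges
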